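import Pool.Agent.H867.FT.Gen11

/-!
# MP_7dd379_ag (project FT of helper867): Nagata's ring, commutative algebra (`S_RZA`)
-/

set_option autoImplicit false

namespace Pool.Agent.H287.FT867RZA

open Polynomial

theorem rza : Pool.Agent.H867.FT.S_RZA := by
  intro R A _ _ _ _ _ _ _ _ _ _ h hloc
  have hle : ((IsLocalRing.maximalIdeal R).map (Polynomial.C : R →+* R[X])).primeCompl ≤
      nonZeroDivisors R[X] :=
    Ideal.primeCompl_le_nonZeroDivisors _
  have hdom : IsDomain A := IsLocalization.isDomain_of_le_nonZeroDivisors A hle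
  have hflat : Module.Flat R[X] A := IsLocalization.flat A
    ((IsLocalRing.maximalIdeal R).map (Polynomial.C : R →+* R[X])).primeCompl
  refine ⟨hdom, ?_, ?_, ?_, ?_⟩
  · exact isIntegrallyClosed_of_isLocalization A
      ((IsLocalRing.maximalIdeal R).map (Polynomial.C : R →+* R[X])).primeCompl hle
  · exact Module.Flat.trans R R[X] A
  · refine ⟨fun r hr => ?_⟩
    by_contra hn
    have hm : r ∈ IsLocalRing.maximalIdeal R := (IsLocalRing.mem_maximalIdeal r).2 hn
    have hC : Polynomial.C r ∈
        (IsLocalRing.maximalIdeal R).map (Polynomial.C : R →+* R[X]) :=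
      Ideal.mem_map_of_mem _ hm
    rw [IsScalarTower.algebraMap_apply R R[X] A] at hr
    have hu := (IsLocalization.AtPrime.isUnit_to_map_iff A
      ((IsLocalRing.maximalIdeal R).map (Polynomial.C : R →+* R[X])) (algebraMap R R[X] r)).1 hr
    exact hu hC
  · rw [IsLocalization.AtPrime.ringKrullDim_eq_height
      ((IsLocalRing.maximalIdeal R).map (Polynomial.C : R →+* R[X])) A,
      Polynomial.height_map_C, IsLocalRing.maximalIdeal_height_eq_ringKrullDim]

end Pool.Agent.H287.FT867RZA
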