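import Mathlib
import Pool.Graph.R_seed8.H469R10.HO.Stmts5

set_option autoImplicit false

/-!
# Bessel's inequality for the `m`-th derivative against the cosines `cos (π j x / 2)` on `[0,2]`
-/

open Finset MeasureTheory Filter Topology

namespace Pool.Agent.H287.XM

open Pool.Agent.H469R10.HO

lemma bessel_gen' {e : ℕ → ℝ → ℝ} {w : ℕ → ℝ} (he : ∀ j, Continuous (e j))
    (ho : ∀ i j, ∫ t in (0:ℝ)..2, e i t * e j t = if i = j then w i else 0)
    {f : ℝ → ℝ} (hf : IntervalIntegrable f volume 0 2)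
    (hf2 : IntervalIntegrable (fun t => f t ^ 2) volume 0 2) (J : Finset ℕ) (a : ℕ → ℝ)
    (ha : ∀ j ∈ J, ∫ t in (0:ℝ)..2, f t * e j t = a j * w j) :
    ∑ j ∈ J, a j ^ 2 * w j ≤ ∫ t in (0:ℝ)..2, f t ^ 2 := by
  have h0 : 0 ≤ ∫ t in (0:ℝ)..2, (f t - ∑ j ∈ J, a j * e j t) ^ 2 := by
    apply intervalIntegral.integral_nonneg (by norm_num)
    intro t _; positivity
  have hg : Continuous fun t => ∑ j ∈ J, a j * e j t :=
    continuous_finsetSum _ fun j _ => by have := he j; fun_prop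
  have h1 : ∀ t, (f t - ∑ j ∈ J, a j * e j t) ^ 2 =
      f t ^ 2 - 2 * (f t * ∑ j ∈ J, a j * e j t) + (∑ j ∈ J, a j * e j t) ^ 2 := by
    intro t; ring
  have hi1 : IntervalIntegrable (fun t => 2 * (f t * ∑ j ∈ J, a j * e j t)) volume 0 2 :=
    (hf.mul_continuousOn hg.continuousOn).const_mul 2
  simp_rw [h1] at h0
  rw [intervalIntegral.integral_add (hf2.sub hi1)
    (Continuous.intervalIntegrable (by fun_prop) _ _), intervalIntegral.integral_sub
    hf2 hi1, intervalIntegral.integral_const_mul, sq_int he ho] at h0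
  have h2 : ∫ t in (0:ℝ)..2, f t * ∑ j ∈ J, a j * e j t = ∑ j ∈ J, a j ^ 2 * w j := by
    simp_rw [mul_sum]
    rw [intervalIntegral.integral_finsetSum]
    · apply sum_congr rfl
      intro j hj
      have : ∀ t, f t * (a j * e j t) = a j * (f t * e j t) := fun t => by ring
      simp_rw [this]
      rw [intervalIntegral.integral_const_mul, ha j hj]; ring
    · intro j _
      exact hf.mul_continuousOn (by have := he j; fun_prop)
  rw [h2] at h0
  linarith

/-- two integrations by parts -/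
lemma two_steps {f f' f'' : ℝ → ℝ} (hc : ContinuousOn f (Set.Icc 0 2)) (hc' : ContinuousOn f' (Set.Icc 0 2))
    (hd : ∀ x ∈ Set.Ioo (0:ℝ) 2, HasDerivAt f (f' x) x) (hd' : ∀ x ∈ Set.Ioo (0:ℝ) 2, HasDerivAt f' (f'' x) x)
    (h0 : f' 0 = 0) (h2 : f' 2 = 0) (hi : IntervalIntegrable f'' volume 0 2) (j : ℕ) :
    xx j ^ 2 * ∫ x in (0:ℝ)..2, f x * Real.cos (xx j * x) = - ∫ x in (0:ℝ)..2, f'' x * Real.cos (xx j * x) := by
  have hu : Set.uIcc (0:ℝ) 2 = Set.Icc 0 2 := Set.uIcc_of_le (by norm_num)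
  have hmin : min (0:ℝ) 2 = 0 := by norm_num
  have hmax : max (0:ℝ) 2 = 2 := by norm_num
  have hi' : IntervalIntegrable f' volume 0 2 := by
    apply ContinuousOn.intervalIntegrable; rw [hu]; exact hc'
  have a1 := intervalIntegral.integral_mul_deriv_eq_deriv_mul_of_hasDerivAt (a := (0:ℝ)) (b := 2)
    (u := f) (v := fun x => Real.sin (xx j * x)) (u' := f') (v' := fun x => xx j * Real.cos (xx j * x))
    (by rw [hu]; exact hc) (by fun_prop) (by rw [hmin, hmax]; exact hd)
    (fun x _ => by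
      have := ((hasDerivAt_id x).const_mul (xx j)).sin
      simp only [id, mul_one] at this
      rwa [mul_comm] at this) hi' (Continuous.intervalIntegrable (by fun_prop) _ _)
  have a2 := intervalIntegral.integral_mul_deriv_eq_deriv_mul_of_hasDerivAt (a := (0:ℝ)) (b := 2)
    (u := f') (v := fun x => -Real.cos (xx j * x)) (u' := f'') (v' := fun x => xx j * Real.sin (xx j * x))
    (by rw [hu]; exact hc') (by fun_prop) (by rw [hmin, hmax]; exact hd')
    (fun x _ => by
      have := (((hasDerivAt_id x).const_mul (xx j)).cos).neg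
      simp only [id, mul_one] at this
      refine this.congr_deriv ?_
      ring) hi (Continuous.intervalIntegrable (by fun_prop) _ _)
  have e1 : ∫ x in (0:ℝ)..2, f x * (xx j * Real.cos (xx j * x)) = xx j * ∫ x in (0:ℝ)..2, f x * Real.cos (xx j * x) := by
    rw [← intervalIntegral.integral_const_mul]; congr 1; ext x; ring
  have e2 : ∫ x in (0:ℝ)..2, f' x * (xx j * Real.sin (xx j * x)) = xx j * ∫ x in (0:ℝ)..2, f' x * Real.sin (xx j * x) := by
    rw [← intervalIntegral.integral_const_mul]; congr 1; ext x; ring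
  have e3 : ∫ x in (0:ℝ)..2, f'' x * -Real.cos (xx j * x) = - ∫ x in (0:ℝ)..2, f'' x * Real.cos (xx j * x) := by
    rw [← intervalIntegral.integral_neg]; congr 1; ext x; ring
  rw [e1] at a1
  rw [e2, e3, h0, h2] at a2
  simp only [xx_sin_two, mul_zero, Real.sin_zero, zero_mul, sub_zero, zero_sub] at a1 a2
  rw [sq, mul_assoc, a1]
  linear_combination -a2

/-- `2k` integrations by parts -/
lemma steps {D : ℕ → ℝ → ℝ} (k : ℕ) (hc : ∀ i < 2 * k, ContinuousOn (D i) (Set.Icc 0 2))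
    (hd : ∀ i < 2 * k, ∀ x ∈ Set.Ioo (0:ℝ) 2, HasDerivAt (D i) (D (i + 1) x) x)
    (hz : ∀ i < 2 * k, Odd i → D i 0 = 0 ∧ D i 2 = 0) (hi : IntervalIntegrable (D (2 * k)) volume 0 2) (j : ℕ) :
    xx j ^ (2 * k) * ∫ x in (0:ℝ)..2, D 0 x * Real.cos (xx j * x) =
      (-1) ^ k * ∫ x in (0:ℝ)..2, D (2 * k) x * Real.cos (xx j * x) := by
  induction k with
  | zero => simp
  | succ k ih =>
    have hi' : IntervalIntegrable (D (2 * k)) volume 0 2 := by
      apply ContinuousOn.intervalIntegrable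
      rw [Set.uIcc_of_le (by norm_num)]
      exact hc _ (by omega)
    have h1 := ih (fun i h => hc i (by omega)) (fun i h => hd i (by omega)) (fun i h => hz i (by omega)) hi'
    have h2 := two_steps (hc (2 * k) (by omega)) (hc (2 * k + 1) (by omega)) (hd (2 * k) (by omega))
      (hd (2 * k + 1) (by omega)) (hz (2 * k + 1) (by omega) ⟨k, rfl⟩).1 (hz (2 * k + 1) (by omega) ⟨k, rfl⟩).2
      (by simpa [mul_add] using hi) j
    calc xx j ^ (2 * (k + 1)) * ∫ x in (0:ℝ)..2, D 0 x * Real.cos (xx j * x)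
        = xx j ^ 2 * (xx j ^ (2 * k) * ∫ x in (0:ℝ)..2, D 0 x * Real.cos (xx j * x)) := by ring
      _ = (-1) ^ k * (xx j ^ 2 * ∫ x in (0:ℝ)..2, D (2 * k) x * Real.cos (xx j * x)) := by rw [h1]; ring
      _ = (-1) ^ (k + 1) * ∫ x in (0:ℝ)..2, D (2 * (k + 1)) x * Real.cos (xx j * x) := by
        rw [h2, show 2 * (k + 1) = 2 * k + 1 + 1 by ring]; ring

/-- Bessel's inequality for `f`, for `f` not necessarily continuous -/
lemma bessel' {f : ℝ → ℝ} (hf : IntervalIntegrable f volume 0 2)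
    (hf2 : IntervalIntegrable (fun t => f t ^ 2) volume 0 2) (J : Finset ℕ) :
    ∑ j ∈ J, PP f j ^ 2 ≤ ∫ t in (0:ℝ)..2, f t ^ 2 := by
  have h := bessel_gen' (e := fun j t => Real.cos (xx j * t)) (w := ww) (fun j => by fun_prop)
    (fun i j => by rw [int_cos_cos]; unfold ww; rfl) hf hf2 J (PP f) (fun j _ => by
      unfold PP
      have := ww_ge j
      field_simp)
  refine le_trans ?_ h
  apply sum_le_sum
  intro j _
  have := ww_ge j
  nlinarith [sq_nonneg (PP f j)]

/-- Bessel's inequality for the derivative of order `m` (even) -/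
lemma bessel_m {m : ℕ} (hm : Even m) {D : ℕ → ℝ → ℝ} (hc : ∀ i < m, ContinuousOn (D i) (Set.Icc 0 2))
    (hd : ∀ i < m, ∀ x ∈ Set.Ioo (0:ℝ) 2, HasDerivAt (D i) (D (i + 1) x) x)
    (hz : ∀ i < m, Odd i → D i 0 = 0 ∧ D i 2 = 0) (hi : IntervalIntegrable (D m) volume 0 2)
    (hi2 : IntervalIntegrable (fun x => D m x ^ 2) volume 0 2) (J : Finset ℕ) :
    ∑ j ∈ J, xx j ^ (2 * m) * PP (D 0) j ^ 2 ≤ ∫ t in (0:ℝ)..2, D m t ^ 2 := by
  obtain ⟨k, rfl⟩ := hm
  rw [← two_mul] at *
  refine le_trans (le_of_eq ?_) (bessel' hi hi2 J)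
  apply sum_congr rfl
  intro j _
  have h := steps k hc hd hz hi j
  have h2 : PP (D (2 * k)) j = (-1) ^ k * (xx j ^ (2 * k) * PP (D 0) j) := by
    unfold PP
    rw [← mul_div_assoc, ← mul_div_assoc, h, ← mul_assoc, ← pow_add, ← two_mul, pow_mul]
    simp
  rw [h2]
  have h3 : ((-1:ℝ) ^ k) ^ 2 = 1 := by rw [← pow_mul, mul_comm, pow_mul]; simp
  rw [mul_pow, h3, mul_pow, ← pow_mul]
  ring_nf

/-- a bounded function continuous on `(0, b]` is interval integrable on `[0, b]` -/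
lemma int_of_bdd {f : ℝ → ℝ} {b M : ℝ} (hb : 0 ≤ b) (hc : ContinuousOn f (Set.Ioc 0 b))
    (hM : ∀ x ∈ Set.Ioc 0 b, |f x| ≤ M) : IntervalIntegrable f volume 0 b := by
  rw [intervalIntegrable_iff_integrableOn_Ioc_of_le hb]
  refine Integrable.of_bound (hc.aestronglyMeasurable measurableSet_Ioc) M ?_
  filter_upwards [ae_restrict_mem measurableSet_Ioc] with x hx
  exact hM x hx

end Pool.Agent.H287.XM
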