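import Mathlib
import Pool.Agent.H287.XM
import Pool.Graph.R_seed8.H99R3.Task469M

set_option autoImplicit false

/-!
# Derivatives of `χ(y) y^(2m) F(1/y)` as explicit sums of terms
-/

open Finset MeasureTheory Filter Topology

namespace Pool.Agent.H287.XM

open Pool.Agent.H469R10.HO Pool.Agent.H99R3.M469

/-- a term `c X_a(y) y^n F_k(1/y)` -/
structure Tm where
  c : ℝ
  a : ℕ
  n : ℕ
  k : ℕ

/-- derivative of a term -/
def Tm.d (t : Tm) : List Tm :=
  [⟨t.c, t.a + 1, t.n, t.k⟩, ⟨t.c * t.n, t.a, t.n - 1, t.k⟩, ⟨-t.c, t.a, t.n - 2, t.k + 1⟩]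

/-- the `i`-th derivative of `X_0(y) y^(2m) F_0(1/y)` -/
def LL (m : ℕ) : ℕ → List Tm
  | 0 => [⟨1, 0, 2 * m, 0⟩]
  | i + 1 => (LL m i).flatMap Tm.d

/-- value of a term -/
noncomputable def Tm.ev (X F : ℕ → ℝ → ℝ) (y : ℝ) (t : Tm) : ℝ := t.c * (X t.a y * (y ^ t.n * F t.k y⁻¹))

/-- value of a list of terms -/
noncomputable def evL (X F : ℕ → ℝ → ℝ) (L : List Tm) (y : ℝ) : ℝ := (L.map (Tm.ev X F y)).sum

lemma evL_nil (X F : ℕ → ℝ → ℝ) (y : ℝ) : evL X F [] y = 0 := rfl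

lemma evL_nil' (X F : ℕ → ℝ → ℝ) : evL X F [] = fun _ => 0 := rfl

lemma evL_cons (X F : ℕ → ℝ → ℝ) (t : Tm) (L : List Tm) (y : ℝ) :
    evL X F (t :: L) y = t.ev X F y + evL X F L y := by
  simp [evL]

lemma evL_append (X F : ℕ → ℝ → ℝ) (L L' : List Tm) (y : ℝ) :
    evL X F (L ++ L') y = evL X F L y + evL X F L' y := by
  simp [evL]

lemma LL_inv (m : ℕ) : ∀ i, ∀ t ∈ LL m i, 2 * m ≤ t.n + 2 * i ∧ t.k ≤ i ∧ t.a ≤ i := by
  intro i
  induction i with
  | zero =>
    intro t ht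
    simp only [LL, List.mem_singleton] at ht
    subst ht
    simp
  | succ i ih =>
    intro t ht
    simp only [LL, List.mem_flatMap] at ht
    obtain ⟨s, hs, ht⟩ := ht
    obtain ⟨h1, h2, h3⟩ := ih s hs
    simp only [Tm.d, List.mem_cons, List.not_mem_nil, or_false] at ht
    rcases ht with rfl | rfl | rfl <;> simp only <;> omega

lemma hd_ev {X F : ℕ → ℝ → ℝ} {y : ℝ} (hy : y ≠ 0) (t : Tm) (hn : 2 ≤ t.n)
    (hX : HasDerivAt (X t.a) (X (t.a + 1) y) y) (hF : HasDerivAt (F t.k) (F (t.k + 1) y⁻¹) y⁻¹) :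
    HasDerivAt (fun y => t.ev X F y) (evL X F t.d y) y := by
  have h1 : HasDerivAt (fun y : ℝ => F t.k y⁻¹) (F (t.k + 1) y⁻¹ * (-(y ^ 2)⁻¹)) y :=
    hF.comp y (hasDerivAt_inv hy)
  have h2 := (hX.mul ((hasDerivAt_pow t.n y).mul h1)).const_mul t.c
  refine HasDerivAt.congr_deriv (f := fun y => t.c * (X t.a y * (y ^ t.n * F t.k y⁻¹))) h2 ?_
  simp only [evL, Tm.d, List.map_cons, List.map_nil, List.sum_cons, List.sum_nil, Tm.ev, Pi.mul_apply]
  obtain ⟨n, hn'⟩ : ∃ n, t.n = n + 2 := ⟨t.n - 2, by omega⟩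
  rw [hn']
  simp only [Nat.add_sub_cancel, show n + 2 - 1 = n + 1 by omega]
  push_cast
  field_simp
  ring

lemma hd_evL {X F : ℕ → ℝ → ℝ} {y : ℝ} (hy : y ≠ 0) (L : List Tm) (hn : ∀ t ∈ L, 2 ≤ t.n)
    (hX : ∀ t ∈ L, HasDerivAt (X t.a) (X (t.a + 1) y) y) (hF : ∀ t ∈ L, HasDerivAt (F t.k) (F (t.k + 1) y⁻¹) y⁻¹) :
    HasDerivAt (evL X F L) (evL X F (L.flatMap Tm.d) y) y := by
  induction L with
  | nil => rw [evL_nil']; exact hasDerivAt_const y (0:ℝ)
  | cons t L ih =>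
    have h1 := hd_ev hy t (hn t (by simp)) (hX t (by simp)) (hF t (by simp))
    have h2 := ih (fun s hs => hn s (by simp [hs])) (fun s hs => hX s (by simp [hs])) (fun s hs => hF s (by simp [hs]))
    rw [List.flatMap_cons, evL_append]
    exact h1.add h2

/-- derivative relation -/
lemma hd_LL {X F : ℕ → ℝ → ℝ} {m i : ℕ} (hi : i < m) {y : ℝ} (hy : y ≠ 0)
    (hX : ∀ a ≤ i, HasDerivAt (X a) (X (a + 1) y) y) (hF : ∀ k ≤ i, HasDerivAt (F k) (F (k + 1) y⁻¹) y⁻¹) :
    HasDerivAt (evL X F (LL m i)) (evL X F (LL m (i + 1)) y) y := by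
  apply hd_evL hy
  · intro t ht
    have := (LL_inv m i t ht).1
    omega
  · intro t ht; exact hX _ (LL_inv m i t ht).2.2
  · intro t ht; exact hF _ (LL_inv m i t ht).2.1

/-- sum of the absolute values of the coefficients -/
noncomputable def cf (L : List Tm) : ℝ := (L.map (fun t => |t.c|)).sum

lemma cf_nonneg (L : List Tm) : 0 ≤ cf L := by
  unfold cf
  apply List.sum_nonneg
  intro x hx
  simp only [List.mem_map] at hx
  obtain ⟨t, _, rfl⟩ := hx
  exact abs_nonneg _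

lemma evL_bd {X F : ℕ → ℝ → ℝ} {y M : ℝ} (L : List Tm) (h : ∀ t ∈ L, |X t.a y * (y ^ t.n * F t.k y⁻¹)| ≤ M) :
    |evL X F L y| ≤ cf L * M := by
  induction L with
  | nil => simp [evL, cf]
  | cons t L ih =>
    have h1 := ih (fun s hs => h s (by simp [hs]))
    have h2 := h t (by simp)
    rw [evL_cons]
    refine (abs_add_le _ _).trans ?_
    have e : cf (t :: L) = |t.c| + cf L := by simp [cf]
    rw [e, add_mul]
    apply add_le_add _ h1
    unfold Tm.ev
    rw [abs_mul]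
    exact mul_le_mul_of_nonneg_left h2 (abs_nonneg _)

/-- continuity (for the orders `i < m`) -/
lemma cont_LL {X F : ℕ → ℝ → ℝ} {m i : ℕ} (hi : i < m) (hX : ∀ a ≤ i, Continuous (X a))
    (hF : ∀ k ≤ i, Continuous (F k)) {M : ℕ → ℝ} (hM : ∀ k ≤ i, ∀ y, |F k y| ≤ M k) :
    Continuous (evL X F (LL m i)) := by
  have key : ∀ L : List Tm, (∀ t ∈ L, 2 * m ≤ t.n + 2 * i ∧ t.k ≤ i ∧ t.a ≤ i) → Continuous (evL X F L) := by
    intro L
    induction L with
    | nil => intro _; rw [evL_nil']; exact continuous_const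
    | cons t L ih =>
      intro h
      obtain ⟨h1, h2, h3⟩ := h t (by simp)
      have e : evL X F (t :: L) = fun y => t.c * (X t.a y * (y ^ t.n * F t.k y⁻¹)) + evL X F L y := by
        ext y; rw [evL_cons]; rfl
      rw [e]
      exact (continuous_const.mul ((hX _ h3).mul (contX (hF _ h2) (hM _ h2) (by omega)))).add
        (ih fun s hs => h s (by simp [hs]))
  exact key _ (LL_inv m i)

/-- value at `0` (for the orders `i < m`) -/
lemma zero_LL {X F : ℕ → ℝ → ℝ} {m i : ℕ} (hi : i < m) : evL X F (LL m i) 0 = 0 := by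
  have key : ∀ L : List Tm, (∀ t ∈ L, 2 * m ≤ t.n + 2 * i ∧ t.k ≤ i ∧ t.a ≤ i) → evL X F L 0 = 0 := by
    intro L
    induction L with
    | nil => intro _; rfl
    | cons t L ih =>
      intro h
      obtain ⟨h1, h2, h3⟩ := h t (by simp)
      have hn : t.n ≠ 0 := by omega
      rw [evL_cons, ih fun s hs => h s (by simp [hs])]
      unfold Tm.ev
      simp [hn]
  exact key _ (LL_inv m i)

/-- value where all `X a` vanish -/
lemma evL_z {X F : ℕ → ℝ → ℝ} {y : ℝ} (L : List Tm) (hX : ∀ a, X a y = 0) : evL X F L y = 0 := by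
  induction L with
  | nil => rfl
  | cons t L ih => rw [evL_cons, ih]; unfold Tm.ev; simp [hX]

lemma contOn_evL {X F : ℕ → ℝ → ℝ} (L : List Tm) (hX : ∀ a, Continuous (X a)) (hF : ∀ k, Continuous (F k)) :
    ContinuousOn (evL X F L) (Set.Ioi 0) := by
  induction L with
  | nil => rw [evL_nil']; exact continuousOn_const
  | cons t L ih =>
    have e : evL X F (t :: L) = fun y => t.c * (X t.a y * (y ^ t.n * F t.k y⁻¹)) + evL X F L y := by
      ext y; rw [evL_cons]; rfl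
    rw [e]
    apply ContinuousOn.add _ ih
    apply continuousOn_const.mul
    apply (hX _).continuousOn.mul
    apply (continuous_pow _).continuousOn.mul
    apply (hF _).comp_continuousOn
    exact continuousOn_id.inv₀ fun x hx => (ne_of_gt hx)

end Pool.Agent.H287.XM
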